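import Pool.Agent.H809G.R6

set_option autoImplicit false

/-- For every density `δ ≥ 4` and among all lattices of density `δ`, the hexagonal lattice is the
unique maximizer of the lower frame bound and the unique minimizer of the upper frame bound of the
Gaussian Gabor system. -/
theorem Pool.Agent.Results.MP_7e122f_an.HexDensityGe4.result :
    ∀ a b c d a₀ b₀ c₀ d₀ : ℝ, a * d - b * c ≠ 0 → |a * d - b * c| ≤ 1 / 4 →
      |a₀ * d₀ - b₀ * c₀| = |a * d - b * c| → H809G.IsHexagonal a₀ b₀ c₀ d₀ →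
      ∃ A B A₀ B₀ : ℝ,
        IsGLB (H809G.RayleighSet a b c d) A ∧ IsLUB (H809G.RayleighSet a b c d) B ∧
        IsGLB (H809G.RayleighSet a₀ b₀ c₀ d₀) A₀ ∧ IsLUB (H809G.RayleighSet a₀ b₀ c₀ d₀) B₀ ∧
        0 < A₀ ∧ A ≤ A₀ ∧ B₀ ≤ B ∧
        (¬ H809G.IsHexagonal a b c d → A < A₀ ∧ B₀ < B) := by
  intro a b c d a₀ b₀ c₀ d₀ h0 h1 h2 h3
  obtain ⟨A, B, A₀, B₀, e1, e2, e3, e4, _, e6, e7, e8, e9⟩ :=
    H809G.main a b c d a₀ b₀ c₀ d₀ h0 h1 h2 h3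
  exact ⟨A, B, A₀, B₀, e1, e2, e3, e4, e6, e7, e8, e9⟩
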